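import Pool.Agent.W64.DM.Stm

/-!
# DM-CNT: points of a box with a small linear form
-/

set_option autoImplicit false

namespace Pool.Agent.W18.DM.Cnt

open Pool.Agent.W64.DM Finset

/-- the additive character -/
noncomputable def ex (x : ℝ) : ℂ := Complex.exp (2 * Real.pi * Complex.I * (x : ℝ))

theorem ex_add (x y : ℝ) : ex (x + y) = ex x * ex y := by
  unfold ex
  rw [← Complex.exp_add]
  congr 1
  push_cast
  ring

theorem ex_conj (x : ℝ) : (starRingEnd ℂ) (ex x) = ex (-x) := by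
  unfold ex
  rw [← Complex.exp_conj]
  congr 1
  rw [map_mul, map_mul, map_mul, Complex.conj_ofReal, Complex.conj_ofReal, Complex.conj_I,
    show (starRingEnd ℂ) 2 = 2 from map_ofNat _ 2]
  push_cast
  ring

theorem ex_norm (x : ℝ) : ‖ex x‖ = 1 := by
  unfold ex
  have : 2 * Real.pi * Complex.I * (x : ℂ) = ((2 * Real.pi * x : ℝ) : ℂ) * Complex.I := by
    push_cast
    ring
  rw [this, Complex.norm_exp_ofReal_mul_I]

theorem ex_int (n : ℤ) : ex (n : ℝ) = 1 := by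
  unfold ex
  rw [Complex.exp_eq_one_iff]
  refine ⟨n, ?_⟩
  push_cast
  ring

theorem ex_zero : ex 0 = 1 := by
  have := ex_int 0
  simpa using this

theorem ex_sum {ι : Type} (s : Finset ι) (f : ι → ℝ) : ex (∑ i ∈ s, f i) = ∏ i ∈ s, ex (f i) := by
  classical
  induction s using Finset.induction_on with
  | empty => simp [ex_zero]
  | insert a s ha ih => rw [sum_insert ha, prod_insert ha, ex_add, ih]

theorem ex_re (x : ℝ) : (ex x).re = Real.cos (2 * Real.pi * x) := by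
  unfold ex
  have : 2 * Real.pi * Complex.I * (x : ℂ) = ((2 * Real.pi * x : ℝ) : ℂ) * Complex.I := by
    push_cast
    ring
  rw [this, Complex.exp_ofReal_mul_I_re]

/-- the short kernel -/
noncomputable def DD (S : ℕ) (v : ℝ) : ℂ := ∑ s ∈ range S, ex (s * v)

theorem DD_lower (S : ℕ) (ρ v : ℝ) (hρ : 0 < ρ) (hS : (S : ℝ) * (8 * ρ) ≤ 1) (hv : nn v < ρ) :
    (S : ℝ) ^ 2 / 2 ≤ ‖DD S v‖ ^ 2 := by
  have h1 : (S : ℝ) * (Real.sqrt 2 / 2) ≤ (DD S v).re := by
    unfold DD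
    rw [Complex.re_sum]
    have : (S : ℝ) * (Real.sqrt 2 / 2) = ∑ s ∈ range S, (Real.sqrt 2 / 2) := by simp
    rw [this]
    apply sum_le_sum
    intro s hs
    have hs' : (s : ℝ) < S := by exact_mod_cast mem_range.1 hs
    have e1 : ex (s * v) = ex (s * (v - round v)) := by
      have : (s : ℝ) * v = s * (v - round v) + ((s * round v : ℤ) : ℝ) := by
        push_cast
        ring
      rw [this, ex_add, ex_int, mul_one]
    rw [e1, ex_re]
    have h2 : |2 * Real.pi * (s * (v - round v))| ≤ Real.pi / 4 := by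
      rw [abs_mul (2 * Real.pi) _, abs_of_pos Real.two_pi_pos, abs_mul (s : ℝ) _,
        abs_of_nonneg (Nat.cast_nonneg s)]
      have h3 : |v - round v| < ρ := hv
      have h4 : (s : ℝ) * |v - round v| ≤ S * ρ := by
        apply mul_le_mul hs'.le h3.le (abs_nonneg _) (Nat.cast_nonneg _)
      have h5 : (S : ℝ) * ρ ≤ 1 / 8 := by linarith
      nlinarith [Real.pi_pos]
    rw [← Real.cos_pi_div_four, ← Real.cos_abs (2 * Real.pi * (s * (v - round v)))]
    apply Real.cos_le_cos_of_nonneg_of_le_pi (abs_nonneg _) (by linarith [Real.pi_pos]) h2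
  have h2 : (DD S v).re ≤ ‖DD S v‖ := Complex.re_le_norm _
  have h3 : (0 : ℝ) ≤ (S : ℝ) * (Real.sqrt 2 / 2) := by positivity
  calc (S : ℝ) ^ 2 / 2 = ((S : ℝ) * (Real.sqrt 2 / 2)) ^ 2 := by
        rw [mul_pow, div_pow, Real.sq_sqrt (by norm_num)]
        ring
    _ ≤ ‖DD S v‖ ^ 2 := pow_le_pow_left₀ h3 (h1.trans h2) 2

theorem sum4 {α β γ δ : Type} (a : Finset α) (b : Finset β) (c : Finset γ) (d : Finset δ)
    (f : α → β → γ → δ → ℂ) :
    ∑ i ∈ a, ∑ j ∈ b, ∑ k ∈ c, ∑ l ∈ d, f i j k l = ∑ k ∈ c, ∑ l ∈ d, ∑ i ∈ a, ∑ j ∈ b, f i j k l := by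
  calc ∑ i ∈ a, ∑ j ∈ b, ∑ k ∈ c, ∑ l ∈ d, f i j k l
      = ∑ i ∈ a, ∑ k ∈ c, ∑ j ∈ b, ∑ l ∈ d, f i j k l := sum_congr rfl fun i _ => sum_comm
    _ = ∑ k ∈ c, ∑ i ∈ a, ∑ j ∈ b, ∑ l ∈ d, f i j k l := sum_comm
    _ = ∑ k ∈ c, ∑ i ∈ a, ∑ l ∈ d, ∑ j ∈ b, f i j k l :=
        sum_congr rfl fun k _ => sum_congr rfl fun i _ => sum_comm
    _ = ∑ k ∈ c, ∑ l ∈ d, ∑ i ∈ a, ∑ j ∈ b, f i j k l := sum_congr rfl fun k _ => sum_comm

/-- the full sum -/
noncomputable def GG {ι : Type} [Fintype ι] [DecidableEq ι] (Q : ι → ℕ) (θ : ι → ℝ) (t : ℝ) : ℂ :=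
  ∑ U ∈ Fintype.piFinset fun i => range (2 * Q i), ex (t * ∑ i, θ i * (U i : ℝ))

theorem GG_norm {ι : Type} [Fintype ι] [DecidableEq ι] (hG : S_GEO) (Q : ι → ℕ) (θ : ι → ℝ)
    (hQ : ∀ i, 1 ≤ Q i) (t : ℝ) :
    ‖GG Q θ t‖ ^ 2 ≤ ∏ i, (4 * (Q i : ℝ) ^ 2 * hh (Q i) (nn (t * θ i))) := by
  have e1 : GG Q θ t = ∏ i, ∑ u ∈ range (2 * Q i), ex (t * θ i * (u : ℝ)) := by
    unfold GG
    rw [Finset.prod_univ_sum]
    apply sum_congr rfl
    intro U _
    rw [mul_sum, ex_sum]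
    apply prod_congr rfl
    intro i _
    congr 1
    ring
  rw [e1, norm_prod, ← prod_pow]
  apply prod_le_prod (fun i _ => by positivity)
  intro i _
  exact hG (Q i) (t * θ i) (hQ i)

theorem upper {ι : Type} [Fintype ι] [DecidableEq ι] (Q : ι → ℕ) (θ : ι → ℝ) (y : ℝ) (S : ℕ) :
    ∑ U ∈ Fintype.piFinset fun i => range (2 * Q i),
      ∑ U' ∈ Fintype.piFinset fun i => range (2 * Q i),
        ‖DD S (∑ i, θ i * (U i : ℝ) - ∑ i, θ i * (U' i : ℝ) - y)‖ ^ 2 ≤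
      ∑ s ∈ range S, ∑ s' ∈ range S, ‖GG Q θ ((s : ℝ) - s')‖ ^ 2 := by
  set B : Finset (ι → ℕ) := Fintype.piFinset fun i => range (2 * Q i) with hB
  have key : ((∑ U ∈ B, ∑ U' ∈ B,
      ‖DD S (∑ i, θ i * (U i : ℝ) - ∑ i, θ i * (U' i : ℝ) - y)‖ ^ 2 : ℝ) : ℂ) =
      ∑ s ∈ range S, ∑ s' ∈ range S, ex (-((s : ℝ) - s') * y) *
        (GG Q θ ((s : ℝ) - s') * (starRingEnd ℂ) (GG Q θ ((s : ℝ) - s'))) := by
    push_cast
    have e1 : ∀ v : ℝ, ((‖DD S v‖ : ℂ)) ^ 2 = ∑ s ∈ range S, ∑ s' ∈ range S,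
        ex (((s : ℝ) - s') * v) := by
      intro v
      rw [← Complex.mul_conj']
      unfold DD
      rw [map_sum, sum_mul_sum]
      apply sum_congr rfl
      intro s _
      apply sum_congr rfl
      intro s' _
      rw [ex_conj, ← ex_add]
      congr 1
      ring
    simp_rw [e1]
    rw [sum4]
    apply sum_congr rfl
    intro s _
    apply sum_congr rfl
    intro s' _
    unfold GG
    rw [map_sum, sum_mul_sum, mul_sum]
    apply sum_congr rfl
    intro U _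
    rw [mul_sum]
    apply sum_congr rfl
    intro U' _
    rw [ex_conj, ← ex_add, ← ex_add]
    congr 1
    ring
  have h0 : 0 ≤ ∑ U ∈ B, ∑ U' ∈ B,
      ‖DD S (∑ i, θ i * (U i : ℝ) - ∑ i, θ i * (U' i : ℝ) - y)‖ ^ 2 := by positivity
  calc ∑ U ∈ B, ∑ U' ∈ B, ‖DD S (∑ i, θ i * (U i : ℝ) - ∑ i, θ i * (U' i : ℝ) - y)‖ ^ 2
      = ‖((∑ U ∈ B, ∑ U' ∈ B,
      ‖DD S (∑ i, θ i * (U i : ℝ) - ∑ i, θ i * (U' i : ℝ) - y)‖ ^ 2 : ℝ) : ℂ)‖ := by
        rw [Complex.norm_real, Real.norm_eq_abs, abs_of_nonneg h0]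
    _ ≤ ∑ s ∈ range S, ∑ s' ∈ range S, ‖GG Q θ ((s : ℝ) - s')‖ ^ 2 := by
        rw [key]
        refine (norm_sum_le _ _).trans (sum_le_sum fun s _ => ?_)
        refine (norm_sum_le _ _).trans (sum_le_sum fun s' _ => ?_)
        rw [norm_mul, norm_mul, ex_norm, Complex.norm_conj, one_mul, sq]

theorem toep (S : ℕ) (F : ℤ → ℝ) (hF : ∀ t, 0 ≤ F t) :
    ∑ s ∈ range S, ∑ s' ∈ range S, F ((s : ℤ) - s') ≤ S * ∑ t ∈ Ioo (-(S : ℤ)) S, F t := by
  rw [sum_comm]
  have h1 : (S : ℝ) * ∑ t ∈ Ioo (-(S : ℤ)) S, F t =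
      ∑ s' ∈ range S, ∑ t ∈ Ioo (-(S : ℤ)) S, F t := by
    simp
  rw [h1]
  apply sum_le_sum
  intro s' hs'
  rw [← sum_image (s := range S) (g := fun s : ℕ => (s : ℤ) - s') (f := F)]
  · apply sum_le_sum_of_subset_of_nonneg
    · intro t ht
      obtain ⟨s, hs, rfl⟩ := mem_image.1 ht
      rw [mem_range] at hs hs'
      rw [mem_Ioo]
      constructor <;> omega
    · intro t _ _
      exact hF t
  · intro s _ s2 _ h
    simp only at h
    omega

theorem main (hG : S_GEO) (hC : S_CELL) : S_CNT := by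
  intro ι _ Q x θ y ρ hQ hρ hρ8 hap
  classical
  set P := (Fintype.piFinset fun i => Finset.Ico (x i) (x i + Q i)).filter fun M =>
    nn (∑ i, θ i * (M i : ℝ) - y) < ρ with hP
  have hPc : ((Fintype.piFinset fun i => Finset.Ico (x i) (x i + Q i)).filter fun M =>
    nn (∑ i, θ i * (M i : ℝ) - y) < ρ).card = P.card := by
    congr 1
  set S : ℕ := ⌊1 / (8 * ρ)⌋₊ with hS
  have hz : 1 ≤ 1 / (8 * ρ) := by
    rw [le_div_iff₀ (by positivity)]
    linarith
  have hS1 : 1 ≤ S := (Nat.one_le_floor_iff _).2 hz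
  have hSle : (S : ℝ) ≤ 1 / (8 * ρ) := Nat.floor_le (by positivity)
  have hSlt : 1 / (8 * ρ) < S + 1 := Nat.lt_floor_add_one _
  have hS1' : (1 : ℝ) ≤ S := by exact_mod_cast hS1
  have hSρ : (S : ℝ) * (8 * ρ) ≤ 1 := by
    rwa [le_div_iff₀ (by positivity)] at hSle
  have hSρ2 : 1 ≤ 16 * ρ * S := by
    rw [div_lt_iff₀ (by positivity)] at hSlt
    nlinarith
  -- lower bound
  set B : Finset (ι → ℕ) := Fintype.piFinset fun i => range (2 * Q i) with hB
  set B0 : Finset (ι → ℕ) := Fintype.piFinset fun i => range (Q i) with hB0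
  set y' : ℝ := y - ∑ i, θ i * (x i : ℝ) with hy'
  have hB0c : (B0.card : ℝ) = ∏ i, (Q i : ℝ) := by
    rw [hB0, Fintype.card_piFinset]
    simp
  have hlow : (P.card : ℝ) * (∏ i, (Q i : ℝ)) * ((S : ℝ) ^ 2 / 2) ≤
      ∑ U ∈ B, ∑ U' ∈ B, ‖DD S (∑ i, θ i * (U i : ℝ) - ∑ i, θ i * (U' i : ℝ) - y')‖ ^ 2 := by
    rw [← sum_product']
    set φ : (ι → ℕ) × (ι → ℕ) → (ι → ℕ) × (ι → ℕ) := fun q => (fun i => q.2 i + (q.1 i - x i), q.2)
      with hφ
    have hmemP : ∀ M ∈ P, ∀ i, x i ≤ M i ∧ M i < x i + Q i := by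
      intro M hM i
      rw [hP, mem_filter, Fintype.mem_piFinset] at hM
      have := hM.1 i
      rwa [mem_Ico] at this
    have hinj : Set.InjOn φ (P ×ˢ B0 : Finset _) := by
      rintro ⟨M, W⟩ h1 ⟨M', W'⟩ h2 h
      simp only [coe_product, Set.mem_prod, mem_coe] at h1 h2
      simp only [hφ, Prod.mk.injEq] at h
      obtain ⟨h3, h4⟩ := h
      refine Prod.ext ?_ h4
      funext i
      have h5 := congrFun h3 i
      have h6 := congrFun h4 i
      have h7 := hmemP M h1.1 i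
      have h8 := hmemP M' h2.1 i
      simp only at h5 ⊢
      omega
    have hsub : (P ×ˢ B0).image φ ⊆ B ×ˢ B := by
      intro q hq
      obtain ⟨⟨M, W⟩, h1, rfl⟩ := mem_image.1 hq
      rw [mem_product] at h1 ⊢
      simp only [hφ]
      have hW : ∀ i, W i < Q i := by
        intro i
        have := h1.2
        rw [hB0, Fintype.mem_piFinset] at this
        exact mem_range.1 (this i)
      constructor
      · rw [hB, Fintype.mem_piFinset]
        intro i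
        rw [mem_range]
        have h7 := hmemP M h1.1 i
        have := hW i
        omega
      · rw [hB, Fintype.mem_piFinset]
        intro i
        rw [mem_range]
        have := hW i
        omega
    calc (P.card : ℝ) * (∏ i, (Q i : ℝ)) * ((S : ℝ) ^ 2 / 2)
        = ∑ q ∈ P ×ˢ B0, ((S : ℝ) ^ 2 / 2) := by
          rw [sum_const, card_product, nsmul_eq_mul]
          push_cast
          rw [hB0c]
      _ ≤ ∑ q ∈ P ×ˢ B0, ‖DD S (∑ i, θ i * ((φ q).1 i : ℝ) - ∑ i, θ i * ((φ q).2 i : ℝ) - y')‖ ^ 2 := by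
          apply sum_le_sum
          rintro ⟨M, W⟩ hq
          rw [mem_product] at hq
          have e1 : ∑ i, θ i * ((φ (M, W)).1 i : ℝ) - ∑ i, θ i * ((φ (M, W)).2 i : ℝ) - y' =
              ∑ i, θ i * (M i : ℝ) - y := by
            rw [hy', ← sum_sub_distrib]
            have : ∀ i, θ i * ((φ (M, W)).1 i : ℝ) - θ i * ((φ (M, W)).2 i : ℝ) =
                θ i * (M i : ℝ) - θ i * (x i : ℝ) := by
              intro i
              simp only [hφ]
              rw [Nat.cast_add, Nat.cast_sub (hmemP M hq.1 i).1]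
              ring
            simp_rw [this]
            rw [sum_sub_distrib]
            ring
          rw [e1]
          apply DD_lower S ρ _ hρ hSρ
          have := hq.1
          rw [hP, mem_filter] at this
          exact this.2
      _ = ∑ q ∈ (P ×ˢ B0).image φ,
          ‖DD S (∑ i, θ i * (q.1 i : ℝ) - ∑ i, θ i * (q.2 i : ℝ) - y')‖ ^ 2 := by
          rw [sum_image hinj]
      _ ≤ ∑ q ∈ B ×ˢ B, ‖DD S (∑ i, θ i * (q.1 i : ℝ) - ∑ i, θ i * (q.2 i : ℝ) - y')‖ ^ 2 := by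
          apply sum_le_sum_of_subset_of_nonneg hsub
          intro q _ _
          positivity
  have hup := upper Q θ y' S
  have hup2 : ∑ s ∈ range S, ∑ s' ∈ range S, ‖GG Q θ ((s : ℝ) - s')‖ ^ 2 ≤
      S * ((∏ i, (4 * (Q i : ℝ) ^ 2)) * 3 ^ Fintype.card ι) := by
    calc ∑ s ∈ range S, ∑ s' ∈ range S, ‖GG Q θ ((s : ℝ) - s')‖ ^ 2
        ≤ ∑ s ∈ range S, ∑ s' ∈ range S,
          ∏ i, (4 * (Q i : ℝ) ^ 2 * hh (Q i) (nn (((((s : ℤ) - s' : ℤ)) : ℝ) * θ i))) := by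
          apply sum_le_sum
          intro s _
          apply sum_le_sum
          intro s' _
          have := GG_norm hG Q θ hQ ((s : ℝ) - s')
          push_cast
          exact this
      _ ≤ S * ∑ t ∈ Ioo (-(S : ℤ)) S, ∏ i, (4 * (Q i : ℝ) ^ 2 * hh (Q i) (nn ((t : ℝ) * θ i))) := by
          refine toep S (fun t => ∏ i, (4 * (Q i : ℝ) ^ 2 * hh (Q i) (nn ((t : ℝ) * θ i)))) ?_
          intro t
          apply prod_nonneg
          intro i _
          unfold hh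
          positivity
      _ = S * ((∏ i, (4 * (Q i : ℝ) ^ 2)) * ∑ t ∈ Ioo (-(S : ℤ)) S, ∏ i, hh (Q i) (nn ((t : ℝ) * θ i))) := by
          have e4 : ∀ t : ℤ, ∏ i, (4 * (Q i : ℝ) ^ 2 * hh (Q i) (nn ((t : ℝ) * θ i))) =
              (∏ i, (4 * (Q i : ℝ) ^ 2)) * ∏ i, hh (Q i) (nn ((t : ℝ) * θ i)) :=
            fun t => prod_mul_distrib
          rw [sum_congr rfl (fun t _ => e4 t), ← mul_sum]
      _ ≤ S * ((∏ i, (4 * (Q i : ℝ) ^ 2)) * 3 ^ Fintype.card ι) := by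
          gcongr
          apply hC ι Q θ S hQ
          intro t ht0 ht
          apply hap t ht0
          have : (t : ℝ) < 2 * S := by exact_mod_cast ht
          rw [le_div_iff₀ hρ]
          nlinarith
  have hfin := (hlow.trans hup).trans hup2
  have hQpos : 0 < ∏ i, (Q i : ℝ) := by
    apply prod_pos
    intro i _
    have := hQ i
    exact_mod_cast this
  have e2 : (∏ i, (4 * (Q i : ℝ) ^ 2)) = 4 ^ Fintype.card ι * (∏ i, (Q i : ℝ)) ^ 2 := by
    rw [prod_mul_distrib, prod_const, card_univ, prod_pow]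
  rw [e2] at hfin
  have e3 : (12 : ℝ) ^ Fintype.card ι = 4 ^ Fintype.card ι * 3 ^ Fintype.card ι := by
    rw [← mul_pow]
    norm_num
  rw [hPc, e3]
  set q := ∏ i, (Q i : ℝ)
  set K4 := (4 : ℝ) ^ Fintype.card ι
  set K3 := (3 : ℝ) ^ Fintype.card ι
  have hK4 : 0 < K4 := by positivity
  have hK3 : 0 < K3 := by positivity
  have hSpos : (0 : ℝ) < S := by linarith
  have h5 : (P.card : ℝ) * S ≤ 2 * (K4 * K3) * q := by
    have h6 : (q * S / 2) * ((P.card : ℝ) * S) ≤ (q * S / 2) * (2 * (K4 * K3) * q) := by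
      nlinarith
    exact le_of_mul_le_mul_left h6 (by positivity)
  calc (P.card : ℝ) = (P.card : ℝ) * 1 := by ring
    _ ≤ (P.card : ℝ) * (16 * ρ * S) := by gcongr
    _ = 16 * ρ * ((P.card : ℝ) * S) := by ring
    _ ≤ 16 * ρ * (2 * (K4 * K3) * q) := by gcongr
    _ = 32 * (K4 * K3) * ρ * q := by ring

end Pool.Agent.W18.DM.Cnt
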