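import Pool.Agent.W64.DM.Stm

/-!
# DM-ZO: the zero-one law
-/

set_option autoImplicit false

namespace Pool.Agent.W18.DM.Zo

open Pool.Agent.W64.DM MeasureTheory Set Filter Topology Metric

abbrev CC : Type := UnitAddCircle

theorem nn_norm (x : ℝ) : ‖(x : CC)‖ = nn x := UnitAddCircle.norm_eq

theorem norm_coe_le (x : ℝ) : ‖(x : CC)‖ ≤ |x| := by
  rw [nn_norm]
  unfold nn
  have := round_le x 0
  simpa using this

theorem coe_int (k : ℤ) : (((k : ℤ) : ℝ) : CC) = 0 := by
  have h : ‖(((k : ℤ) : ℝ) : CC)‖ = 0 := by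
    rw [nn_norm]
    simp [nn]
  exact norm_eq_zero.1 h

theorem thick (n : ℤ) (hn : 1 ≤ n) (a δ : ℝ) :
    {x : CC | ‖n • x + (a : CC)‖ < δ} = thickening (δ / n) {x : CC | n • x + (a : CC) = 0} := by
  have hn0 : (0 : ℝ) < n := by exact_mod_cast (lt_of_lt_of_le zero_lt_one hn)
  ext x
  rw [mem_thickening_iff]
  constructor
  · intro hx
    obtain ⟨t, rfl⟩ := QuotientAddGroup.mk_surjective x
    change ‖n • (t : CC) + (a : CC)‖ < δ at hx
    have e1 : n • (t : CC) + (a : CC) = ((n * t + a : ℝ) : CC) := by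
      rw [AddCircle.coe_add, ← zsmul_eq_mul]
      rfl
    rw [e1, nn_norm] at hx
    set k := round ((n : ℝ) * t + a) with hk
    refine ⟨(((k - a) / n : ℝ) : CC), ?_, ?_⟩
    · show n • (((k - a) / n : ℝ) : CC) + (a : CC) = 0
      have e2 : n • (((k - a) / n : ℝ) : CC) + (a : CC) = ((n * ((k - a) / n) + a : ℝ) : CC) := by
        rw [AddCircle.coe_add, ← zsmul_eq_mul]
        rfl
      rw [e2]
      have e3 : (n : ℝ) * ((k - a) / n) + a = k := by
        field_simp
        ring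
      rw [e3]
      exact coe_int k
    · rw [dist_eq_norm]
      change ‖(t : CC) - (((k - a) / n : ℝ) : CC)‖ < δ / n
      rw [← AddCircle.coe_sub]
      refine (norm_coe_le _).trans_lt ?_
      have e4 : t - (k - a) / n = (n * t + a - k) / n := by
        field_simp
        ring
      rw [e4, abs_div, abs_of_pos hn0, div_lt_div_iff_of_pos_right hn0]
      exact hx
  · rintro ⟨y, hy, hxy⟩
    have e1 : n • x + (a : CC) = n • (x - y) := by
      have hy' : n • y + (a : CC) = 0 := hy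
      rw [zsmul_sub, sub_eq_add_neg]
      congr 1
      rw [eq_neg_iff_add_eq_zero, add_comm]
      exact hy'
    show ‖n • x + (a : CC)‖ < δ
    rw [e1]
    rw [dist_eq_norm] at hxy
    calc ‖n • (x - y)‖ ≤ n * ‖x - y‖ := by
          have h2 := norm_zsmul_le n (x - y)
          rwa [Int.norm_eq_abs, abs_of_pos hn0] at h2
      _ < n * (δ / n) := by gcongr
      _ = δ := by field_simp

/-- the product -/
noncomputable def HH {d : ℕ} (v : (Fin d → ℤ) × ℤ) : ℝ := Hm v.1 * max |(v.2 : ℝ)| 2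

theorem one_le_Hm {d : ℕ} (m : Fin d → ℤ) : 2 ^ d ≤ Hm m := by
  unfold Hm
  calc (2 : ℝ) ^ d = ∏ _i : Fin d, (2 : ℝ) := by simp
    _ ≤ ∏ i, max |(m i : ℝ)| 2 := Finset.prod_le_prod (fun _ _ => by norm_num)
        fun i _ => le_max_right _ _

theorem HH_ge {d : ℕ} (v : (Fin d → ℤ) × ℤ) : 2 ^ (d + 1) ≤ HH v := by
  unfold HH
  rw [pow_succ]
  have := one_le_Hm v.1
  have h2 : (2 : ℝ) ≤ max |(v.2 : ℝ)| 2 := le_max_right _ _
  have h3 : (0 : ℝ) < 2 ^ d := by positivity
  nlinarith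

theorem fin_HH {d : ℕ} (X : ℝ) : {v : (Fin d → ℤ) × ℤ | HH v ≤ X}.Finite := by
  set N : ℤ := ⌈|X|⌉ with hN
  have hsub : {v : (Fin d → ℤ) × ℤ | HH v ≤ X} ⊆
      (Set.pi univ fun _ => Icc (-N) N) ×ˢ (Icc (-N) N) := by
    rintro ⟨m, n⟩ hv
    have hv' : Hm m * max |(n : ℝ)| 2 ≤ X := hv
    have hXN : X ≤ N := (le_abs_self X).trans (Int.le_ceil _)
    have h1 : (1 : ℝ) ≤ Hm m := (one_le_pow₀ (by norm_num)).trans (one_le_Hm m)
    have hn : |(n : ℝ)| ≤ N := by
      have h2 : |(n : ℝ)| ≤ max |(n : ℝ)| 2 := le_max_left _ _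
      have h3 : (0 : ℝ) ≤ max |(n : ℝ)| 2 := le_trans (by norm_num) (le_max_right _ _)
      nlinarith
    have hn' : |n| ≤ N := by exact_mod_cast hn
    have hm : ∀ i, |(m i : ℝ)| ≤ N := by
      intro i
      have h2 : |(m i : ℝ)| ≤ Hm m := by
        unfold Hm
        calc |(m i : ℝ)| ≤ max |(m i : ℝ)| 2 := le_max_left _ _
          _ = max |(m i : ℝ)| 2 * ∏ j ∈ Finset.univ.erase i, (1 : ℝ) := by simp
          _ ≤ max |(m i : ℝ)| 2 * ∏ j ∈ Finset.univ.erase i, max |(m j : ℝ)| 2 := by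
            have h0 : (0 : ℝ) ≤ max |(m i : ℝ)| 2 := le_trans (by norm_num) (le_max_right _ _)
            refine mul_le_mul_of_nonneg_left ?_ h0
            exact Finset.prod_le_prod (fun _ _ => zero_le_one)
              fun j _ => le_trans (by norm_num) (le_max_right _ _)
          _ = ∏ j, max |(m j : ℝ)| 2 :=
            Finset.mul_prod_erase Finset.univ (fun j => max |(m j : ℝ)| 2) (Finset.mem_univ i)
      have h3 : (1 : ℝ) ≤ max |(n : ℝ)| 2 := le_trans (by norm_num) (le_max_right _ _)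
      nlinarith
    refine ⟨?_, ?_⟩
    · intro i _
      have : |m i| ≤ N := by exact_mod_cast hm i
      exact abs_le.1 this
    · exact abs_le.1 hn'
  exact ((Set.Finite.pi fun _ => finite_Icc _ _).prod (finite_Icc _ _)).subset hsub

theorem psi_eq {d : ℕ} (v : (Fin d → ℤ) × ℤ) :
    psi v.1 v.2 = 1 / (HH v * Real.log (HH v) ^ (d + 1)) := rfl

theorem log_pos {d : ℕ} (v : (Fin d → ℤ) × ℤ) : 1 / 2 ≤ Real.log (HH v) := by
  have h1 : (2 : ℝ) ≤ HH v := by
    refine le_trans ?_ (HH_ge v)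
    rw [pow_succ]
    have : (1 : ℝ) ≤ 2 ^ d := one_le_pow₀ (by norm_num)
    linarith
  have h2 := Real.log_two_gt_d9
  have h3 := Real.log_le_log (by norm_num) h1
  linarith

theorem HH_pos {d : ℕ} (v : (Fin d → ℤ) × ℤ) : 0 < HH v :=
  lt_of_lt_of_le (by positivity) (HH_ge v)

theorem psi_pos {d : ℕ} (v : (Fin d → ℤ) × ℤ) : 0 < psi v.1 v.2 := by
  rw [psi_eq]
  have := HH_pos v
  have := log_pos v
  positivity

theorem psi_fin {d : ℕ} {ε : ℝ} (hε : 0 < ε) :
    {v : (Fin d → ℤ) × ℤ | ε ≤ psi v.1 v.2}.Finite := by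
  refine (fin_HH (2 ^ (d + 1) / ε)).subset ?_
  intro v hv
  have hv' : ε ≤ psi v.1 v.2 := hv
  rw [psi_eq] at hv'
  have h1 := HH_pos v
  have h2 := log_pos v
  have h3 : (1 / 2 : ℝ) ^ (d + 1) ≤ Real.log (HH v) ^ (d + 1) := pow_le_pow_left₀ (by norm_num) h2 _
  have h4 : (0 : ℝ) < (1 / 2) ^ (d + 1) := by positivity
  rw [le_div_iff₀ (by positivity)] at hv'
  show HH v ≤ 2 ^ (d + 1) / ε
  rw [le_div_iff₀ hε]
  have h5 : ε * (HH v * (1 / 2) ^ (d + 1)) ≤ 1 := by
    refine le_trans ?_ hv'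
    gcongr
  have h6 : (2 : ℝ) ^ (d + 1) * (1 / 2) ^ (d + 1) = 1 := by
    rw [← mul_pow]
    norm_num
  calc HH v * ε = (ε * (HH v * (1 / 2) ^ (d + 1))) * 2 ^ (d + 1) := by
        linear_combination (-(HH v * ε)) * h6
    _ ≤ 1 * 2 ^ (d + 1) := by gcongr
    _ = 2 ^ (d + 1) := one_mul _

/-- doubling the first vector -/
def dbl {d : ℕ} (v : (Fin d → ℤ) × ℤ) : (Fin d → ℤ) × ℤ := (fun i => 2 * v.1 i, v.2)

theorem dbl_inj {d : ℕ} : Function.Injective (dbl (d := d)) := by
  rintro ⟨m, n⟩ ⟨m', n'⟩ h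
  simp only [dbl, Prod.mk.injEq] at h
  refine Prod.ext ?_ h.2
  funext i
  have := congrFun h.1 i
  simp only at this ⊢
  omega

theorem psi_dbl {d : ℕ} (v : (Fin d → ℤ) × ℤ) :
    psi v.1 v.2 ≤ 2 ^ (2 * d + 1) * psi (dbl v).1 (dbl v).2 := by
  rw [psi_eq, psi_eq]
  have h0 := HH_pos v
  have h1 : HH (dbl v) ≤ 2 ^ d * HH v := by
    unfold HH dbl
    simp only
    have : Hm (fun i => 2 * v.1 i) ≤ 2 ^ d * Hm v.1 := by
      unfold Hm
      have e : (2 : ℝ) ^ d * ∏ i, max |(v.1 i : ℝ)| 2 = ∏ i, (2 * max |(v.1 i : ℝ)| 2) := by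
        rw [Finset.prod_mul_distrib]
        simp
      rw [e]
      apply Finset.prod_le_prod
      · intro i _
        exact le_trans (by norm_num) (le_max_right _ _)
      · intro i _
        push_cast
        rw [abs_mul, abs_of_pos (by norm_num : (0 : ℝ) < 2)]
        apply max_le
        · have := le_max_left |(v.1 i : ℝ)| 2
          linarith
        · have := le_max_right |(v.1 i : ℝ)| 2
          linarith
    have h3 : (0 : ℝ) ≤ max |(v.2 : ℝ)| 2 := le_trans (by norm_num) (le_max_right _ _)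
    nlinarith
  have h2 : Real.log (HH (dbl v)) ≤ 2 * Real.log (HH v) := by
    have h3 := Real.log_le_log (HH_pos (dbl v)) h1
    rw [Real.log_mul (by positivity) h0.ne'] at h3
    have h4 : Real.log (2 ^ d) ≤ Real.log (HH v) := by
      apply Real.log_le_log (by positivity)
      refine le_trans ?_ (HH_ge v)
      exact pow_le_pow_right₀ (by norm_num) (Nat.le_succ d)
    linarith
  have h5 := log_pos v
  have h6 := log_pos (dbl v)
  have h7 := HH_pos (dbl v)
  rw [mul_one_div, div_le_div_iff₀ (by positivity) (by positivity), one_mul]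
  calc HH (dbl v) * Real.log (HH (dbl v)) ^ (d + 1)
      ≤ (2 ^ d * HH v) * (2 * Real.log (HH v)) ^ (d + 1) := by gcongr
    _ = 2 ^ (2 * d + 1) * (HH v * Real.log (HH v) ^ (d + 1)) := by
        rw [mul_pow, show 2 * d + 1 = d + (d + 1) by ring, pow_add]
        ring

theorem main : S_ZO := by
  intro d α hd hpos
  obtain ⟨hden⟩ : Nonempty (Denumerable ((Fin d → ℤ) × ℤ)) := nonempty_denumerable _
  set e : ℕ ≃ (Fin d → ℤ) × ℤ := (Denumerable.eqv _).symm with he
  set p : ℕ → Prop := fun i => 1 ≤ (e i).2 with hp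
  set s : ℕ → Set CC := fun i => {x : CC | (e i).2 • x + (dotp α (e i).1 : CC) = 0} with hs
  set r : ℕ → ℝ := fun i => psi (e i).1 (e i).2 / max ((e i).2 : ℝ) 1 with hr
  -- the sets on the circle
  set W : ℝ → Set CC := fun c => {x | {i | p i ∧
    ‖(e i).2 • x + (dotp α (e i).1 : CC)‖ < c * psi (e i).1 (e i).2}.Infinite} with hW
  have hWb : ∀ c, W c = blimsup (fun i => thickening (c * r i) (s i)) atTop p := by
    intro c
    rw [← Nat.cofinite_eq_atTop, cofinite.blimsup_set_eq]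
    ext x
    rw [hW]
    simp only [mem_ofPred_eq]
    have : {i | p i ∧ ‖(e i).2 • x + (dotp α (e i).1 : CC)‖ < c * psi (e i).1 (e i).2} =
        {i | p i ∧ x ∈ thickening (c * r i) (s i)} := by
      ext i
      refine and_congr_right fun hi => ?_
      have h1 := thick (e i).2 hi (dotp α (e i).1) (c * psi (e i).1 (e i).2)
      have h2 : c * r i = c * psi (e i).1 (e i).2 / ((e i).2 : ℝ) := by
        rw [hr]
        simp only
        have hi' : (1 : ℝ) ≤ ((e i).2 : ℝ) := by exact_mod_cast hi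
        rw [max_eq_left hi', mul_div_assoc]
      rw [h2, hs]
      simp only
      rw [← h1]
      rfl
    rw [this]
  have hrt : Tendsto r atTop (𝓝 0) := by
    rw [← Nat.cofinite_eq_atTop, Metric.tendsto_nhds]
    intro ε hε
    rw [Filter.eventually_cofinite]
    refine ((psi_fin (d := d) hε).preimage e.injective.injOn).subset ?_
    intro i hi
    have hi' : ¬ dist (r i) 0 < ε := hi
    rw [Real.dist_eq, sub_zero, not_lt] at hi'
    have h1 := psi_pos (e i)
    have h2 : (1 : ℝ) ≤ max ((e i).2 : ℝ) 1 := le_max_right _ _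
    rw [hr] at hi'
    simp only at hi'
    rw [abs_of_nonneg (by positivity)] at hi'
    show ε ≤ psi (e i).1 (e i).2
    refine hi'.trans (div_le_self h1.le h2)
  have hWae : ∀ c, 0 < c → W c =ᵐ[(volume : Measure CC)] W 1 := by
    intro c hc
    rw [hWb c, hWb 1]
    have := blimsup_thickening_mul_ae_eq (volume : Measure CC) p s hc r hrt
    simpa using this
  have hWm : MeasurableSet (W 1) := by
    rw [hWb 1]
    exact MeasurableSet.measurableSet_blimsup fun n _ => isOpen_thickening.measurableSet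
  have himg : (fun y : CC => 2 • y) '' W 1 ⊆ W (2 ^ (2 * d + 2)) := by
    rintro _ ⟨x, hx, rfl⟩
    have hx' : {i | p i ∧ ‖(e i).2 • x + (dotp α (e i).1 : CC)‖ < 1 * psi (e i).1 (e i).2}.Infinite := hx
    show {i | p i ∧ ‖(e i).2 • (2 • x) + (dotp α (e i).1 : CC)‖ <
      2 ^ (2 * d + 2) * psi (e i).1 (e i).2}.Infinite
    have hinj : Function.Injective (fun i => e.symm (dbl (e i))) :=
      e.symm.injective.comp (dbl_inj.comp e.injective)
    refine (hx'.image hinj.injOn).mono ?_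
    rintro _ ⟨i, ⟨hi1, hi2⟩, rfl⟩
    simp only [mem_ofPred_eq, hp, Equiv.apply_symm_apply]
    refine ⟨hi1, ?_⟩
    have e1 : (dbl (e i)).2 • (2 • x) + (dotp α (dbl (e i)).1 : CC) =
        2 • ((e i).2 • x + (dotp α (e i).1 : CC)) := by
      have e2 : dotp α (dbl (e i)).1 = 2 * dotp α (e i).1 := by
        unfold dotp dbl
        rw [Finset.mul_sum]
        apply Finset.sum_congr rfl
        intro j _
        push_cast
        ring
      have e3 : ((2 * dotp α (e i).1 : ℝ) : CC) = 2 • (dotp α (e i).1 : CC) := by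
        rw [two_mul, AddCircle.coe_add, two_nsmul]
      rw [e2, e3, nsmul_add]
      congr 1
      show (e i).2 • (2 • x) = 2 • ((e i).2 • x)
      exact smul_comm _ _ _
    rw [e1]
    calc ‖2 • ((e i).2 • x + (dotp α (e i).1 : CC))‖
        ≤ 2 * ‖(e i).2 • x + (dotp α (e i).1 : CC)‖ := by
          have := norm_nsmul_le (n := 2) (a := (e i).2 • x + (dotp α (e i).1 : CC))
          simpa using this
      _ < 2 * (1 * psi (e i).1 (e i).2) := by linarith
      _ ≤ 2 * (1 * (2 ^ (2 * d + 1) * psi (dbl (e i)).1 (dbl (e i)).2)) := by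
          have := psi_dbl (e i)
          linarith
      _ = 2 ^ (2 * d + 2) * psi (dbl (e i)).1 (dbl (e i)).2 := by
          rw [pow_succ]
          ring
  have h01 := (AddCircle.ergodic_nsmul (T := 1) one_lt_two).ae_empty_or_univ_of_image_ae_le
    hWm.nullMeasurableSet (himg.eventuallyLE.trans_eq (hWae _ (by positivity)))
  -- back to the line
  have hWW : WW α = (fun t : ℝ => (t : CC)) ⁻¹' W 1 := by
    ext t
    show {v : (Fin d → ℤ) × ℤ | 1 ≤ v.2 ∧ nn (dotp α v.1 + v.2 * t) < psi v.1 v.2}.Infinite ↔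
      {i | p i ∧ ‖(e i).2 • (t : CC) + (dotp α (e i).1 : CC)‖ < 1 * psi (e i).1 (e i).2}.Infinite
    have e1 : {i | p i ∧ ‖(e i).2 • (t : CC) + (dotp α (e i).1 : CC)‖ < 1 * psi (e i).1 (e i).2} =
        e ⁻¹' {v : (Fin d → ℤ) × ℤ | 1 ≤ v.2 ∧ nn (dotp α v.1 + v.2 * t) < psi v.1 v.2} := by
      ext i
      refine and_congr_right fun _ => ?_
      have e2 : (e i).2 • (t : CC) + (dotp α (e i).1 : CC) =
          ((dotp α (e i).1 + (e i).2 * t : ℝ) : CC) := by
        rw [AddCircle.coe_add, ← zsmul_eq_mul, add_comm]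
        rfl
      rw [e2, nn_norm, one_mul]
    rw [e1, ← Set.infinite_image_iff (f := e.symm) e.symm.injective.injOn]
    rw [Equiv.image_symm_eq_preimage]
  rcases h01 with h0 | h1
  · exfalso
    have hz : (volume : Measure CC) (W 1) = 0 := ae_eq_empty.1 h0
    have hmp := AddCircle.measurePreserving_mk 1 0
    have h2 : (volume.restrict (Ioc (0 : ℝ) (0 + 1))) ((fun t : ℝ => (t : CC)) ⁻¹' W 1) = 0 :=
      hmp.quasiMeasurePreserving.preimage_null hz
    rw [← hWW, Measure.restrict_apply' measurableSet_Ioc, zero_add] at h2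
    have h3 : volume (Icc (0 : ℝ) 1 ∩ WW α) = 0 := by
      have h4 : Icc (0 : ℝ) 1 ∩ WW α ⊆ (WW α ∩ Ioc 0 1) ∪ {0} := by
        rintro t ⟨ht, htW⟩
        rcases ht.1.eq_or_lt with h | h
        · right
          exact h.symm
        · left
          exact ⟨htW, h, ht.2⟩
      refine measure_mono_null h4 (measure_union_null h2 (by simp))
    rw [h3] at hpos
    exact lt_irrefl _ hpos
  · rw [ae_iff]
    have hz : (volume : Measure CC) (W 1)ᶜ = 0 := by
      rw [← mem_ae_iff]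
      exact eventuallyEq_univ.1 h1
    have hcov : {t : ℝ | ¬ t ∈ WW α} ⊆ ⋃ k : ℤ, ((WW α)ᶜ ∩ Ioc (k : ℝ) (k + 1)) := by
      intro t ht
      obtain ⟨k, hk, -⟩ := existsUnique_add_zsmul_mem_Ioc (zero_lt_one' ℝ) t 0
      rw [mem_iUnion]
      refine ⟨-k, ht, ?_⟩
      simp only [zsmul_eq_mul, mul_one, zero_add, mem_Ioc] at hk
      push_cast
      constructor <;> linarith [hk.1, hk.2]
    refine measure_mono_null hcov (measure_iUnion_null fun k => ?_)
    have hmp := AddCircle.measurePreserving_mk 1 (k : ℝ)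
    have h2 : (volume.restrict (Ioc (k : ℝ) (k + 1))) ((fun t : ℝ => (t : CC)) ⁻¹' (W 1)ᶜ) = 0 :=
      hmp.quasiMeasurePreserving.preimage_null hz
    rw [Measure.restrict_apply' measurableSet_Ioc] at h2
    rw [hWW]
    exact h2

end Pool.Agent.W18.DM.Zo
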